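import Mathlib

/-! Total domination, total dominator colourings, and two families of trees. -/

set_option autoImplicit false

namespace Pool.Agent.Lib.MP_03797a_co

variable {V : Type} (G : SimpleGraph V)

/-- The total domination number. -/
noncomputable def gammaT : ℕ :=
  sInf {k | ∃ S : Finset V, S.card = k ∧ ∀ v, ∃ u ∈ S, G.Adj v u}

/-- A proper colouring in which every vertex is adjacent to all vertices of some nonempty class. -/
def IsTDColouring {κ : Type} (c : V → κ) : Prop :=
  (∀ u v, G.Adj u v → c u ≠ c v) ∧ ∀ v, ∃ i, (∃ u, c u = i) ∧ ∀ u, c u = i → G.Adj v u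

/-- The total dominator chromatic number. -/
noncomputable def chiTD : ℕ := sInf {k | ∃ c : V → Fin k, IsTDColouring G c}

/-- Henning's family, for a tree `G`: two vertices, or disjoint stars of order at least three
with centre set `S` that cover all vertices, all other edges joining leaves of the stars, every
centre being adjacent to a leaf of `G`. -/
def InFamilyT : Prop :=
  Nat.card V = 2 ∨ ∃ S : Set V, (∀ s ∈ S, ∀ t ∈ S, ¬ G.Adj s t) ∧
    (∀ v ∉ S, ∃! s, s ∈ S ∧ G.Adj v s) ∧
    ∀ s ∈ S, (∃ a b, a ≠ b ∧ G.Adj s a ∧ G.Adj s b) ∧ ∃ l, G.Adj s l ∧ ∀ w, G.Adj l w → w = s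

/-- Three marks. -/
inductive Mark where
  | D : Mark
  | B : Mark
  | I : Mark

/-- A set `P` of centres and a marking `m` of the vertices that obey five local rules. -/
structure Marking (P : Set V) (m : V → Mark) : Prop where
  /-- No vertex is adjacent to two centres. -/
  pack : ∀ p ∈ P, ∀ q ∈ P, ∀ v, G.Adj p v → G.Adj q v → p = q
  /-- The neighbours of a centre are all marked `B`, or one is marked `D` and the others `I`. -/
  centre : ∀ p ∈ P, (∀ v, G.Adj p v → m v = .B) ∨
    ∃ d, G.Adj p d ∧ m d = .D ∧ ∀ v, G.Adj p v → v ≠ d → m v = .I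
  /-- A vertex with no centre among its neighbours is marked `I`. -/
  far : ∀ v, (∀ p ∈ P, ¬ G.Adj p v) → m v = .I
  /-- A vertex that is not a centre has a neighbour marked `D`. -/
  outer : ∀ v ∉ P, ∃ d, G.Adj v d ∧ m d = .D
  /-- No two vertices marked `I` are adjacent. -/
  indep : ∀ u v, G.Adj u v → m u = .I → m v ≠ .I

end Pool.Agent.Lib.MP_03797a_co
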