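import Pool.Agent.Lib.MP_03797a_co.Tree

/-! Markings from colourings and colourings from markings. -/

set_option autoImplicit false

open Finset
open scoped Classical

namespace Pool.Agent.Lib.MP_03797a_co

variable {V : Type} {G : SimpleGraph V} [Fintype V]

/-- Few dominated classes give a marking. -/
lemma tight (hG : G.IsTree) {P : Finset V} (hP : Pack G P) (C : V → Finset V)
    (hne : ∀ v, (C v).Nonempty) (hadj : ∀ v, ∀ x ∈ C v, G.Adj v x)
    (hcard : (univ.image C).card ≤ P.card)
    (hcov : ∀ u v, G.Adj u v → (∃ y, u ∈ C y) ∨ ∃ y, v ∈ C y) :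
    ∃ m, Marking G (P : Set V) m ∧ ∀ y, ∀ x ∈ C y, m x ≠ .I := by
  have hinj : Set.InjOn C P := fun p hp q hq e => by
    obtain ⟨x, hx⟩ := hne p
    exact hP p hp q hq x (hadj p x hx) (hadj q x (e ▸ hx))
  have him : P.image C = univ.image C :=
    eq_of_subset_of_card_le (image_subset_image (subset_univ _))
      (by rw [card_image_of_injOn hinj]; exact hcard)
  have hall : ∀ v, ∃ p ∈ P, C p = C v := fun v =>
    mem_image.1 (him ▸ mem_image_of_mem C (mem_univ v))
  let m : V → Mark := fun v => if ∃ p ∈ P, C p = {v} then .D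
    else if ∃ p ∈ P, G.Adj p v ∧ ∀ d, C p ≠ {d} then .B else .I
  have hs : ∀ {p v}, C p = {v} → G.Adj p v := fun {p v} e => hadj p v (by simp [e])
  have hI : ∀ y, ∀ x ∈ C y, m x ≠ .I := fun y x hx => by
    obtain ⟨p, hp, e⟩ := hall y
    rw [← e] at hx
    simp only [m]
    split_ifs with h1 h2
    · simp
    · simp
    · refine (h2 ⟨p, hp, hadj p x hx, fun d hd => h1 ⟨p, hp, ?_⟩⟩).elim
      rw [hd, mem_singleton] at hx
      rw [hd, hx]
  refine ⟨m, ⟨hP, fun p hp => ?_, fun v hv => ?_, fun v hv => ?_, fun u v huv hu hv => ?_⟩, hI⟩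
  · by_cases h : ∃ d, C p = {d}
    · obtain ⟨d, hd⟩ := h
      refine Or.inr ⟨d, hs hd, if_pos ⟨p, hp, hd⟩, fun v hv hvd => ?_⟩
      simp only [m]
      rw [if_neg, if_neg]
      · rintro ⟨q, hq, h1, h2⟩
        exact h2 d (hP p hp q hq v hv h1 ▸ hd)
      · rintro ⟨q, hq, h1⟩
        rw [← hP p hp q hq v hv (hs h1), hd] at h1
        exact hvd (singleton_injective h1).symm
    · refine Or.inl fun v hv => ?_
      simp only [m]
      rw [if_neg, if_pos ⟨p, hp, hv, fun d hd => h ⟨d, hd⟩⟩]
      rintro ⟨q, hq, h1⟩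
      exact h ⟨v, hP p hp q hq v hv (hs h1) ▸ h1⟩
  · simp only [m]
    rw [if_neg, if_neg]
    · rintro ⟨q, hq, h1, -⟩
      exact hv q hq h1
    · rintro ⟨q, hq, h1⟩
      exact hv q hq (hs h1)
  · obtain ⟨p, hp, e⟩ := hall v
    obtain ⟨a, ha⟩ := hne p
    refine ⟨a, hadj v a (e ▸ ha), if_pos ⟨p, hp, eq_singleton_iff_unique_mem.2 ⟨ha, fun b hb => ?_⟩⟩⟩
    exact no_square hG (u := v) (v := p) (fun h => hv (h ▸ hp)) (hadj v b (e ▸ hb)) (hadj p b hb)
      (hadj v a (e ▸ ha)) (hadj p a ha)
  · rcases hcov u v huv with ⟨y, hy⟩ | ⟨y, hy⟩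
    · exact hI y u hy hu
    · exact hI y v hy hv

lemma of_col (hG : G.IsTree) [Nontrivial V] {k : ℕ} {c : V → Fin k} (hc : IsTDColouring G c)
    (hk : k ≤ gammaT G + 1) :
    ∃ (P : Set V) (m : V → Mark), Marking G P m ∧ (k ≤ gammaT G → ∀ v, m v ≠ .I) := by
  obtain ⟨s, hs⟩ := exists_side hG
  choose D P hPY hP hD hDP using fun b : Bool => dual hG (univ.filter fun v => s v = b)
  choose j hj using hc.2
  have hsP : ∀ b, ∀ p ∈ P b, s p = b := fun b p hp => (mem_filter.1 (hPY b hp)).2
  have hsame : ∀ p q v, G.Adj p v → G.Adj q v → s p = s q := fun p q v h1 h2 => by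
    have a1 := hs p v h1
    have a2 := hs q v h2
    revert a1 a2
    cases s p <;> cases s q <;> cases s v <;> simp
  have hPP : Pack G (P false ∪ P true) := fun p hp q hq v h1 h2 => by
    have e := hsame p q v h1 h2
    rcases mem_union.1 hp with hp | hp <;> rcases mem_union.1 hq with hq | hq
    · exact hP _ p hp q hq v h1 h2
    · rw [hsP _ p hp, hsP _ q hq] at e; simp at e
    · rw [hsP _ p hp, hsP _ q hq] at e; simp at e
    · exact hP _ p hp q hq v h1 h2
  have hPc : (P false ∪ P true).card = (P false).card + (P true).card :=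
    card_union_of_disjoint (disjoint_left.2 fun p h1 h2 => by
      have := (hsP _ p h1).symm.trans (hsP _ p h2)
      simp at this)
  choose d hd using fun v => hD (s v) v (by simp)
  have hγ : gammaT G ≤ (P false).card + (P true).card := by
    refine (gamma_le (S := D false ∪ D true) fun v => ⟨d v, ?_, (hd v).2⟩).trans
      ((card_union_le _ _).trans (add_le_add (hDP _) (hDP _)))
    have := (hd v).1
    revert this
    cases s v <;> simp +contextual
  let M : Bool → Finset (Fin k) := fun b => (univ.filter fun v => s v = b).image j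
  have hM : ∀ b, (P b).card ≤ (M b).card := fun b =>
    card_le_card_of_injOn j (fun p hp => mem_coe.2 (mem_image_of_mem _ (hPY b hp)))
      fun p hp q hq e => by
        obtain ⟨u, hu⟩ := (hj p).1
        exact hP b p hp q hq u ((hj p).2 u hu) ((hj q).2 u (hu.trans e))
  have hMc : (M false ∪ M true).card = (M false).card + (M true).card :=
    card_union_of_disjoint (disjoint_left.2 fun i h1 h2 => by
      obtain ⟨p, hp, rfl⟩ := mem_image.1 h1
      obtain ⟨q, hq, e⟩ := mem_image.1 h2
      obtain ⟨u, hu⟩ := (hj p).1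
      have := hsame p q u ((hj p).2 u hu) ((hj q).2 u (hu.trans e.symm))
      rw [(mem_filter.1 hp).2, (mem_filter.1 hq).2] at this
      simp at this)
  have hMk : (M false ∪ M true).card ≤ k := (card_le_univ _).trans (by simp)
  have hMj : ∀ i ∈ M false ∪ M true, ∃ y, j y = i := fun i hi => by
    rcases mem_union.1 hi with hi | hi <;> exact (mem_image.1 hi).imp fun y hy => hy.2
  have hfull : k ≤ (M false ∪ M true).card → ∀ x, ∃ y, j y = c x := fun h x =>
    hMj _ (by rw [eq_univ_of_card (M false ∪ M true) (by simp; omega)]; exact mem_univ _)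
  let cls : Fin k → Finset V := fun i => univ.filter fun u => c u = i
  have hne : ∀ v, (cls (j v)).Nonempty := fun v => (hj v).1.imp fun u hu => by simpa [cls] using hu
  have hadj : ∀ v, ∀ x ∈ cls (j v), G.Adj v x := fun v x hx => (hj v).2 x (mem_filter.1 hx).2
  have hmem : ∀ x y, j y = c x → x ∈ cls (j y) := fun x y e => by simp [cls, e]
  by_cases hA : ∀ b, (M b).card ≤ (P b).card
  · obtain ⟨m, h1, h2⟩ := tight hG hPP (fun v => cls (j v)) hne hadj (by
      have : univ.image (fun v => cls (j v)) ⊆ (M false ∪ M true).image cls := fun X hX => by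
        obtain ⟨v, -, rfl⟩ := mem_image.1 hX
        refine mem_image_of_mem _ (mem_union.2 ?_)
        cases e : s v
        · exact Or.inl (mem_image_of_mem _ (by simpa using e))
        · exact Or.inr (mem_image_of_mem _ (by simpa using e))
      refine (card_le_card this).trans (card_image_le.trans ?_)
      rw [hMc, hPc]
      exact add_le_add (hA _) (hA _)) (fun u v huv => by
      by_contra h
      rw [not_or] at h
      have hu : c u ∉ M false ∪ M true := fun hu => h.1 ((hMj _ hu).imp fun y => hmem u y)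
      have hv : c v ∉ M false ∪ M true := fun hv => h.2 ((hMj _ hv).imp fun y => hmem v y)
      have h3 := card_le_univ (insert (c u) (insert (c v) (M false ∪ M true)))
      rw [card_insert_of_notMem (by rw [mem_insert, not_or]; exact ⟨hc.1 u v huv, hu⟩),
        card_insert_of_notMem hv, Fintype.card_fin] at h3
      have := hM false
      have := hM true
      omega)
    refine ⟨_, m, h1, fun h v => ?_⟩
    obtain ⟨y, hy⟩ := hfull (by have := hM false; have := hM true; omega) v
    exact h2 y v (hmem v y hy)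
  · obtain ⟨b, hb⟩ := not_forall.1 hA
    have hb' : (M (!b)).card ≤ (P (!b)).card ∧ k ≤ (M false ∪ M true).card ∧ ¬ k ≤ gammaT G ∧
        (P false ∪ P true).card = (P b).card + (P (!b)).card := by
      have := hM false
      have := hM true
      cases b <;> simp only [Bool.not_false, Bool.not_true] <;> omega
    obtain ⟨m, h1, -⟩ := tight hG hPP (fun v => if s v = b then {d v} else cls (j v))
      (fun v => by split_ifs; exacts [singleton_nonempty _, hne v])
      (fun v x hx => by
        split_ifs at hx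
        · rw [mem_singleton.1 hx]; exact (hd v).2
        · exact hadj v x hx) (by
      have : univ.image (fun v => if s v = b then {d v} else cls (j v)) ⊆
          (D b).image singleton ∪ (M (!b)).image cls := fun X hX => by
        obtain ⟨v, -, rfl⟩ := mem_image.1 hX
        split_ifs with e
        · exact mem_union_left _ (mem_image_of_mem _ (e ▸ (hd v).1))
        · refine mem_union_right _ (mem_image_of_mem _ (mem_image_of_mem _ ?_))
          exact mem_filter.2 ⟨mem_univ _, Bool.eq_not.2 e⟩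
      refine (card_le_card this).trans ((card_union_le _ _).trans ?_)
      rw [hb'.2.2.2]
      exact add_le_add (card_image_le.trans (hDP b)) (card_image_le.trans hb'.1))
      (fun u v huv => by
        have key : ∀ x, s x = b → ∃ y, x ∈ (if s y = b then {d y} else cls (j y) : Finset V) :=
          fun x hx => by
            obtain ⟨y, hy⟩ := hfull hb'.2.1 x
            refine ⟨y, ?_⟩
            rw [if_neg (hx ▸ hs y x ((hj y).2 x hy.symm))]
            exact hmem x y hy
        by_cases e : s u = b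
        · exact Or.inl (key u e)
        · refine Or.inr (key v ?_)
          have := hs u v huv
          revert this e
          cases s u <;> cases s v <;> cases b <;> simp)
    exact ⟨_, m, h1, fun h => (hb'.2.2.1 h).elim⟩

lemma to_col (hG : G.IsTree) [Nontrivial V] {P : Set V} {m : V → Mark} (h : Marking G P m) :
    chiTD G ≤ gammaT G + 1 ∧ ((∀ v, m v ≠ .I) → chiTD G ≤ gammaT G) := by
  obtain ⟨s, hs⟩ := exists_side hG
  have hex : ∀ v, ∃ p, m v ≠ .I → p ∈ P ∧ G.Adj p v := fun v => by
    by_cases hv : m v = .I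
    · exact ⟨v, fun h' => (h' hv).elim⟩
    · by_contra hc
      exact hv (h.far v fun p hp hpv => hc ⟨p, fun _ => ⟨hp, hpv⟩⟩)
  choose f hf using hex
  let c : V → Option V := fun v => if m v = .I then none else some (f v)
  have hc : ∀ v p, c v = some p ↔ m v ≠ .I ∧ f v = p := fun v p => by
    simp only [c]
    split_ifs with e <;> simp [e]
  have hc' : ∀ v, ∀ p ∈ P, G.Adj p v → m v ≠ .I → c v = some p := fun v p hp hpv hv =>
    (hc v p).2 ⟨hv, h.pack _ (hf v hv).1 p hp v (hf v hv).2 hpv⟩
  have hcl : ∀ v p, c v = some p → G.Adj p v := fun v p e => by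
    obtain ⟨h1, rfl⟩ := (hc v p).1 e
    exact (hf v h1).2
  have hD : ∀ v d, G.Adj v d → m d = .D → ∃ i, (∃ u, c u = i) ∧ ∀ u, c u = i → G.Adj v u :=
    fun v d hvd hd => by
      have h1 : m d ≠ .I := by simp [hd]
      refine ⟨c d, ⟨d, rfl⟩, fun u hu => ?_⟩
      rw [(hc d _).2 ⟨h1, rfl⟩] at hu
      rcases h.centre _ (hf d h1).1 with h2 | ⟨d', -, -, h2⟩
      · have := h2 d (hf d h1).2
        simp [hd] at this
      · have e1 : d = d' := by
          by_contra e
          exact h1 (h2 d (hf d h1).2 e)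
        have e2 : u = d' := by
          by_contra e
          exact ((hc u _).1 hu).1 (h2 u (hcl u _ hu) e)
        rw [e2, ← e1]
        exact hvd
  have htd : IsTDColouring G c := by
    refine ⟨fun u v huv e => ?_, fun v => ?_⟩
    · by_cases hu : m u = .I
      · have := h.indep u v huv hu
        simp [c, hu, this] at e
      · have e1 := (hc u _).2 ⟨hu, rfl⟩
        have a1 := hs _ _ (hcl u _ e1)
        have a2 := hs _ _ (hcl v _ (e ▸ e1))
        have a3 := hs u v huv
        revert a1 a2 a3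
        cases s u <;> cases s v <;> cases s (f u) <;> simp
    · by_cases hv : v ∈ P
      · rcases h.centre v hv with h2 | ⟨d, h2, h3, -⟩
        · obtain ⟨u, hu⟩ := exists_nbr hG v
          exact ⟨some v, ⟨u, hc' u v hv hu (by simp [h2 u hu])⟩, fun w hw => hcl w v hw⟩
        · exact hD v d h2 h3
      · obtain ⟨d, h2, h3⟩ := h.outer v hv
        exact hD v d h2 h3
  have hP : (P.toFinset.image some).card ≤ gammaT G := card_image_le.trans
    (pack_le hG fun p hp q hq => h.pack p (Set.mem_toFinset.1 hp) q (Set.mem_toFinset.1 hq))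
  have hm : ∀ v, m v ≠ .I → c v ∈ P.toFinset.image some := fun v hv => by
    rw [(hc v _).2 ⟨hv, rfl⟩]
    exact mem_image_of_mem _ (Set.mem_toFinset.2 (hf v hv).1)
  refine ⟨(chi_le htd).trans ((card_le_card (t := insert none (P.toFinset.image some))
    fun i hi => ?_).trans ((card_insert_le _ _).trans (by omega))),
    fun hI => (chi_le htd).trans ((card_le_card fun i hi => ?_).trans hP)⟩
  · obtain ⟨v, -, rfl⟩ := mem_image.1 hi
    by_cases hv : m v = .I
    · simp [c, hv]
    · exact mem_insert_of_mem (hm v hv)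
  · obtain ⟨v, -, rfl⟩ := mem_image.1 hi
    exact hm v (hI v)

omit [Fintype V] in
lemma card_two (hG : G.IsTree) {u v : V} (h : G.Adj u v) (hu : ∀ w, G.Adj u w → w = v)
    (hv : ∀ w, G.Adj v w → w = u) : Nat.card V = 2 := by
  have key : ∀ a b (p : G.Walk a b), a = u ∨ a = v → b = u ∨ b = v := fun a b p => by
    induction p with
    | nil => exact id
    | cons h' _ ih =>
      rintro (rfl | rfl)
      · exact ih (Or.inr (hu _ h'))
      · exact ih (Or.inl (hv _ h'))
  refine Nat.card_eq_two_iff.2 ⟨u, v, h.ne, Set.eq_univ_of_forall fun w => ?_⟩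
  obtain ⟨p⟩ := hG.connected u w
  simpa using key u w p (Or.inl rfl)

omit [Fintype V] in
lemma family_of (hG : G.IsTree) {P : Set V} {m : V → Mark} (h : Marking G P m)
    (hI : ∀ v, m v ≠ .I) : InFamilyT G := by
  by_cases h2 : Nat.card V = 2
  · exact Or.inl h2
  have hex : ∀ v, ∃ p ∈ P, G.Adj p v := fun v => by
    by_contra hc
    exact hI v (h.far v fun p hp hpv => hc ⟨p, hp, hpv⟩)
  have hcen : ∀ p ∈ P, (∀ v, G.Adj p v → m v = .B) ∨
      ∃ d, G.Adj p d ∧ m d = .D ∧ ∀ v, G.Adj p v → v = d := fun p hp =>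
    (h.centre p hp).imp id fun ⟨d, h1, h3, h4⟩ => ⟨d, h1, h3, fun v hv => by
      by_contra e
      exact hI v (h4 v hv e)⟩
  have hleaf : ∀ d, m d = .D → ∃ q ∈ P, G.Adj d q ∧ ∀ w, G.Adj q w → w = d := fun d hd => by
    obtain ⟨q, hq, hqd⟩ := hex d
    rcases hcen q hq with h1 | ⟨d', -, -, h1⟩
    · have := h1 d hqd
      simp [hd] at this
    · exact ⟨q, hq, hqd.symm, fun w hw => (h1 w hw).trans (h1 d hqd).symm⟩
  have hDP : ∀ d, m d = .D → d ∈ P ∧ ∀ v, G.Adj d v → m v = .B := fun d hd => by
    obtain ⟨q, hq, hdq, h1⟩ := hleaf d hd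
    obtain ⟨p, hp, hpq⟩ := hex q
    obtain rfl := h1 p hpq.symm
    refine ⟨hp, (hcen p hp).resolve_right fun ⟨d', _, _, h3⟩ => ?_⟩
    exact h2 (card_two hG hdq (fun w hw => (h3 w hw).trans (h3 q hdq).symm) h1)
  refine Or.inr ⟨{v | m v = .D}, fun a ha b hb hab => ?_, fun v hv => ?_, fun a ha => ?_⟩
  · have := (hDP a ha).2 b hab
    rw [show m b = .D from hb] at this
    simp at this
  · refine existsUnique_of_exists_of_unique ?_ fun a b ha hb =>
      h.pack a (hDP a ha.1).1 b (hDP b hb.1).1 v ha.2.symm hb.2.symm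
    by_contra hc
    have hn : ∀ d, G.Adj v d → m d ≠ .D := fun d h1 h3 => hc ⟨d, h3, h1⟩
    have hvP : v ∈ P := by
      by_contra e
      obtain ⟨d, h1, h3⟩ := h.outer v e
      exact hn d h1 h3
    obtain ⟨p, hp, hpv⟩ := hex v
    have key : ∀ a ∈ P, ∀ b ∈ P, G.Adj b a → m a ≠ .D → ∀ w, G.Adj a w → w = b :=
      fun a ha b hb hba hma w hw => by
        by_cases e : w ∈ P
        · exact h.pack w e b hb a hw.symm hba
        · obtain ⟨d, h1, h3⟩ := h.outer w e
          exact (hma (h.pack a ha d (hDP d h3).1 w hw h1.symm ▸ h3)).elim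
    exact h2 (card_two hG hpv (key p hp v hvP hpv.symm (hn p hpv.symm)) (key v hvP p hp hpv hv))
  · obtain ⟨q, -, h1, h3⟩ := hleaf a ha
    refine ⟨?_, q, h1, h3⟩
    by_contra hc
    refine h2 (card_two hG h1 (fun w hw => ?_) h3)
    by_contra e
    exact hc ⟨w, q, e, hw, h1⟩

omit [Fintype V] in
lemma of_family (hG : G.IsTree) [Nontrivial V] (h : InFamilyT G) :
    ∃ (P : Set V) (m : V → Mark), Marking G P m ∧ ∀ v, m v ≠ .I := by
  rcases h with h | ⟨S, h1, h2, h3⟩
  · obtain ⟨a, b, -, hab⟩ := Nat.card_eq_two_iff.1 h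
    have key : ∀ p q v : V, p ≠ v → q ≠ v → p = q := fun p q v e1 e2 => by
      have hp : p ∈ ({a, b} : Set V) := hab ▸ Set.mem_univ _
      have hq : q ∈ ({a, b} : Set V) := hab ▸ Set.mem_univ _
      have hv : v ∈ ({a, b} : Set V) := hab ▸ Set.mem_univ _
      grind
    refine ⟨Set.univ, fun _ => .D, ⟨fun p _ q _ v e1 e2 => key p q v e1.ne e2.ne, fun p _ => ?_,
      fun v hv => ?_, fun v hv => (hv (Set.mem_univ v)).elim, fun _ _ _ _ => by simp⟩, by simp⟩
    · obtain ⟨d, hd⟩ := exists_nbr hG p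
      exact Or.inr ⟨d, hd, rfl, fun v hv e => (e (key v d p hv.ne' hd.ne')).elim⟩
    · obtain ⟨d, hd⟩ := exists_nbr hG v
      exact (hv d (Set.mem_univ d) hd.symm).elim
  · choose! l hl using fun s hs => (h3 s hs).2
    refine ⟨S ∪ l '' S, fun v => if v ∈ S then .D else .B, ⟨?_, ?_, fun v hv => ?_,
      fun v hv => ?_, fun u v _ hu => by split_ifs <;> simp⟩, fun v => by dsimp only; split_ifs <;> simp⟩
    · rintro p (hp | ⟨s, hs, rfl⟩) q (hq | ⟨t, ht, rfl⟩) v e1 e2
      · exact (h2 v fun hv => h1 p hp v hv e1).unique ⟨hp, e1.symm⟩ ⟨hq, e2.symm⟩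
      · exact (h1 p hp t ht ((hl t ht).2 v e2 ▸ e1)).elim
      · exact (h1 q hq s hs ((hl s hs).2 v e1 ▸ e2)).elim
      · rw [← (hl s hs).2 v e1, ← (hl t ht).2 v e2]
    · rintro p (hp | ⟨s, hs, rfl⟩)
      · exact Or.inl fun v hv => if_neg fun hv' => h1 p hp v hv' hv
      · exact Or.inr ⟨s, (hl s hs).1.symm, if_pos hs, fun v hv e => (e ((hl s hs).2 v hv)).elim⟩
    · by_cases e : v ∈ S
      · exact (hv (l v) (Or.inr ⟨v, e, rfl⟩) (hl v e).1.symm).elim
      · obtain ⟨s, hs, -⟩ := h2 v e
        exact (hv s (Or.inl hs.1) hs.2.symm).elim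
    · obtain ⟨s, hs, -⟩ := h2 v fun e => hv (Or.inl e)
      exact ⟨s, hs.2, if_pos hs.1⟩

theorem main (hG : G.IsTree) [Nontrivial V] :
    chiTD G = gammaT G + 1 ↔ (∃ P m, Marking G P m) ∧ ¬ InFamilyT G := by
  obtain ⟨c, hc⟩ := exists_col hG
  have h0 := gamma_le_chi hG
  constructor
  · intro h
    obtain ⟨P, m, h1, -⟩ := of_col hG hc h.le
    refine ⟨⟨P, m, h1⟩, fun hT => ?_⟩
    obtain ⟨P', m', h2, h3⟩ := of_family hG hT
    have := (to_col hG h2).2 h3
    omega
  · rintro ⟨⟨P, m, h1⟩, hT⟩
    have h2 := (to_col hG h1).1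
    by_contra h
    obtain ⟨P', m', h3, h4⟩ := of_col hG hc h2
    exact hT (family_of hG h3 (h4 (by omega)))

end Pool.Agent.Lib.MP_03797a_co
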