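import Pool.Agent.Lib.MP_03797a_co.Defs

/-! Trees: parents, packings, and the two basic inequalities. -/

set_option autoImplicit false

open Finset
open scoped Classical

namespace Pool.Agent.Lib.MP_03797a_co

variable {V : Type} {G : SimpleGraph V}

lemma parent_unique (hG : G.IsTree) {r z y y' : V} (h : G.Adj y z) (h' : G.Adj y' z)
    (e : G.dist r z = G.dist r y + 1) (e' : G.dist r z = G.dist r y' + 1) : y = y' := by
  obtain ⟨p, hp⟩ := hG.connected.exists_walk_length_eq_dist r y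
  obtain ⟨q, hq⟩ := hG.connected.exists_walk_length_eq_dist r y'
  have h1 := (p.concat h).isPath_of_length_eq_dist (by rw [p.length_concat, hp, e])
  have h2 := (q.concat h').isPath_of_length_eq_dist (by rw [q.length_concat, hq, e'])
  have h3 : p.concat h = q.concat h' :=
    Subtype.mk.inj ((hG.isAcyclic.subsingleton_path r z).elim ⟨_, h1⟩ ⟨_, h2⟩)
  have h4 := congrArg SimpleGraph.Walk.penultimate h3
  simpa using h4

lemma no_square (hG : G.IsTree) {u v a b : V} (huv : u ≠ v) (h1 : G.Adj u a) (h2 : G.Adj v a)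
    (h3 : G.Adj u b) (h4 : G.Adj v b) : a = b := by
  have e1 := SimpleGraph.dist_eq_one_iff_adj.2 h1
  have e2 := SimpleGraph.dist_eq_one_iff_adj.2 h3
  have e3 := hG.connected.pos_dist_of_ne huv
  have e4 := hG.dist_eq_dist_add_one_of_adj u h2
  exact parent_unique hG (r := u) h2.symm h4.symm (by omega) (by omega)

lemma exists_side (hG : G.IsTree) : ∃ s : V → Bool, ∀ u v, G.Adj u v → s u ≠ s v := by
  obtain ⟨r⟩ := hG.connected.nonempty
  refine ⟨fun v => decide (G.dist r v % 2 = 0), fun u v h => ?_⟩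
  have := hG.dist_eq_dist_add_one_of_adj r h
  simp only [ne_eq, decide_eq_decide]
  omega

lemma exists_nbr (hG : G.IsTree) [Nontrivial V] (v : V) : ∃ u, G.Adj v u :=
  hG.connected.preconnected.exists_adj_of_nontrivial v

/-- No vertex is adjacent to two members. -/
def Pack (G : SimpleGraph V) (P : Finset V) : Prop :=
  ∀ p ∈ P, ∀ q ∈ P, ∀ v, G.Adj p v → G.Adj q v → p = q

variable [Fintype V]

/-- Domination and packing are dual in a tree. -/
lemma dual (hG : G.IsTree) [Nontrivial V] (Y : Finset V) :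
    ∃ D P : Finset V, P ⊆ Y ∧ Pack G P ∧ (∀ y ∈ Y, ∃ d ∈ D, G.Adj y d) ∧ D.card ≤ P.card := by
  obtain ⟨r⟩ := hG.connected.nonempty
  induction hn : Y.card using Nat.strong_induction_on generalizing Y with
  | _ n ih =>
  rcases Y.eq_empty_or_nonempty with rfl | hY
  · exact ⟨∅, ∅, subset_rfl, by simp [Pack], by simp, le_rfl⟩
  obtain ⟨y, hy, hmax⟩ := exists_max_image Y (G.dist r) hY
  obtain ⟨x, hx, hmin⟩ := exists_min_image (univ.filter (G.Adj y)) (G.dist r) (by
    obtain ⟨u, hu⟩ := exists_nbr hG y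
    exact ⟨u, by simpa using hu⟩)
  have hx' : G.Adj y x := (mem_filter.1 hx).2
  have hlt : (Y.filter fun v => ¬ G.Adj v x).card < n := by
    rw [← hn]
    exact card_lt_card (filter_ssubset.2 ⟨y, hy, not_not.2 hx'⟩)
  obtain ⟨D, P, h1, h2, h3, h4⟩ := ih _ hlt _ rfl
  have key : ∀ q ∈ P, ∀ z, G.Adj y z → G.Adj q z → False := fun q hq z hz hqz => by
    obtain ⟨hq1, hq2⟩ := mem_filter.1 (h1 hq)
    have a1 := hG.dist_eq_dist_add_one_of_adj r hz
    have a2 := hG.dist_eq_dist_add_one_of_adj r hqz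
    have a3 := hG.dist_eq_dist_add_one_of_adj r hx'
    have a4 := hmax q hq1
    have a5 := hmin z (by simpa using hz)
    rcases a1 with a1 | a1
    · exact hq2 (parent_unique hG (r := r) hz.symm hx'.symm a1 (by omega) ▸ hqz)
    · exact hq2 (parent_unique hG (r := r) hz hqz a1 (by omega) ▸ hx')
  have hyP : y ∉ P := fun h => (mem_filter.1 (h1 h)).2 hx'
  refine ⟨insert x D, insert y P, insert_subset hy (h1.trans (filter_subset _ _)), ?_, ?_, ?_⟩
  · intro p hp q hq v hpv hqv
    rcases mem_insert.1 hp with e | hp' <;> rcases mem_insert.1 hq with e' | hq'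
    · rw [e, e']
    · exact (key q hq' v (e ▸ hpv) hqv).elim
    · exact (key p hp' v (e' ▸ hqv) hpv).elim
    · exact h2 p hp' q hq' v hpv hqv
  · intro v hv
    by_cases h : G.Adj v x
    · exact ⟨x, mem_insert_self _ _, h⟩
    · obtain ⟨d, hd, hd'⟩ := h3 v (mem_filter.2 ⟨hv, h⟩)
      exact ⟨d, mem_insert_of_mem hd, hd'⟩
  · rw [card_insert_of_notMem hyP]
    exact (card_insert_le _ _).trans (by omega)

omit [Fintype V] in
lemma gamma_le {S : Finset V} (h : ∀ v, ∃ u ∈ S, G.Adj v u) : gammaT G ≤ S.card :=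
  Nat.sInf_le ⟨S, rfl, h⟩

lemma pack_le (hG : G.IsTree) [Nontrivial V] {P : Finset V} (h : Pack G P) :
    P.card ≤ gammaT G := by
  obtain ⟨S, h1, h2⟩ := Nat.sInf_mem (s := {k | ∃ S : Finset V, S.card = k ∧
    ∀ v, ∃ u ∈ S, G.Adj v u}) ⟨_, univ, rfl, fun v => by simpa using exists_nbr hG v⟩
  choose f hf using h2
  rw [gammaT, ← h1]
  exact card_le_card_of_injOn f (fun v _ => (hf v).1)
    fun p hp q hq e => h p hp q hq (f p) (hf p).2 (e ▸ (hf q).2)

lemma chi_le {κ : Type} [DecidableEq κ] {c : V → κ} (h : IsTDColouring G c) :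
    chiTD G ≤ (univ.image c).card := by
  let e := (univ.image c).equivFin
  let c' : V → Fin (univ.image c).card := fun v => e ⟨c v, mem_image_of_mem _ (mem_univ v)⟩
  have he : ∀ u v, c' u = c' v ↔ c u = c v := fun u v => by
    simp only [c', e.apply_eq_iff_eq, Subtype.mk.injEq]
  refine Nat.sInf_le ⟨c', fun u v huv => (he u v).not.2 (h.1 u v huv), fun v => ?_⟩
  obtain ⟨i, ⟨u, rfl⟩, hi⟩ := h.2 v
  exact ⟨c' u, ⟨u, rfl⟩, fun w hw => hi w ((he w u).1 hw)⟩

lemma exists_col (hG : G.IsTree) [Nontrivial V] : ∃ c : V → Fin (chiTD G), IsTDColouring G c := by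
  refine Nat.sInf_mem (s := {k | ∃ c : V → Fin k, IsTDColouring G c})
    ⟨_, Fintype.equivFin V, fun u v h e => h.ne ((Fintype.equivFin V).injective e), fun v => ?_⟩
  obtain ⟨u, hu⟩ := exists_nbr hG v
  exact ⟨_, ⟨u, rfl⟩, fun w hw => (Fintype.equivFin V).injective hw ▸ hu⟩

lemma gamma_le_chi (hG : G.IsTree) [Nontrivial V] : gammaT G ≤ chiTD G := by
  obtain ⟨c, -, hc⟩ := exists_col hG
  choose j hj using hc
  have : ∀ i : Fin (chiTD G), ∃ u : V, (∃ w, c w = i) → c u = i := fun i => by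
    by_cases h : ∃ w, c w = i
    · exact h.imp fun w hw _ => hw
    · exact ⟨hG.connected.nonempty.some, fun h' => (h h').elim⟩
  choose rep hrep using this
  refine (gamma_le (S := univ.image rep) fun v => ⟨rep (j v), mem_image_of_mem _ (mem_univ _),
    (hj v).2 _ (hrep _ (hj v).1)⟩).trans (card_image_le.trans (by simp))

end Pool.Agent.Lib.MP_03797a_co
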